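import Pool.Agent.W873.RS.Stm

set_option autoImplicit false

open MeasureTheory ProbabilityTheory Filter Topology
open scoped ENNReal

namespace Pool.Agent.W433.RS.HY

open Pool.Agent.W873.RS

theorem sc_trans {a b c : ℝ} (h : sc a c) : sc a b ∨ sc b c := by
  unfold sc at *
  by_cases h1 : a < 0 ↔ b < 0
  · right
    intro h2
    exact h (h1.trans h2)
  · left
    exact h1

theorem meas_sc {Ω : Type} [MeasurableSpace Ω] {f g : Ω → ℝ} (hf : Measurable f)
    (hg : Measurable g) : MeasurableSet {ω | sc (f ω) (g ω)} := by
  have h1 : MeasurableSet {ω | f ω < 0} := measurableSet_lt hf measurable_const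
  have h2 : MeasurableSet {ω | g ω < 0} := measurableSet_lt hg measurable_const
  have h3 : {ω | sc (f ω) (g ω)} = ({ω | f ω < 0} \ {ω | g ω < 0}) ∪
      ({ω | g ω < 0} \ {ω | f ω < 0}) := by
    ext ω
    simp only [sc, Set.mem_setOf_eq, Set.mem_union, Set.mem_diff]
    tauto
  rw [h3]
  exact (h1.diff h2).union (h2.diff h1)

theorem fub {ι : Type} [Fintype ι] [DecidableEq ι] {Y : ι → Type} [∀ i, MeasurableSpace (Y i)]
    (μ : (i : ι) → Measure (Y i)) [∀ i, IsProbabilityMeasure (μ i)] (i : ι)
    (E : Set ((i : ι) → Y i)) (hE : MeasurableSet E) (β : ℝ≥0∞)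
    (h : ∀ ω, μ i {x | Function.update ω i x ∈ E} ≤ β) : Measure.pi μ E ≤ β := by
  have h1 : Measure.pi μ E = ∫⁻ ω, E.indicator (fun _ => (1 : ℝ≥0∞)) ω ∂(Measure.pi μ) := by
    rw [lintegral_indicator hE]
    simp
  have h2 : β = ∫⁻ _ω : ((i : ι) → Y i), β ∂(Measure.pi μ) := by simp
  rw [h1]
  conv_rhs => rw [h2]
  refine lintegral_le_of_lmarginal_le {i} (measurable_const.indicator hE) measurable_const ?_
  intro ω
  rw [lmarginal_singleton, lmarginal_singleton]
  simp only [lintegral_const, measure_univ, mul_one]
  refine le_trans (le_of_eq ?_) (h ω)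
  have h3 : MeasurableSet {x | Function.update ω i x ∈ E} :=
    (measurable_update ω) hE
  have h4 : (fun x : Y i => E.indicator (fun _ => (1 : ℝ≥0∞)) (Function.update ω i x)) =
      {x | Function.update ω i x ∈ E}.indicator (fun _ => (1 : ℝ≥0∞)) := by
    funext x
    by_cases hx : Function.update ω i x ∈ E
    · rw [Set.indicator_of_mem hx,
        Set.indicator_of_mem (s := {x | Function.update ω i x ∈ E}) hx]
    · rw [Set.indicator_of_notMem hx,
        Set.indicator_of_notMem (s := {x | Function.update ω i x ∈ E}) hx]
  rw [h4, lintegral_indicator h3]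
  simp

theorem main : Pool.Agent.W873.RS.HY := by
  intro s Y _ μ _ p q β hp hq hβ b
  classical
  let S : Finset (Fin s) → ((i : Fin s) → Y i) → ℝ := fun T ω =>
    (∑ i, if i ∈ T then q i (ω i) else p i (ω i)) + b
  have hS : ∀ T, Measurable (S T) := by
    intro T
    refine Measurable.add_const (Finset.measurable_sum _ fun i _ => ?_) b
    by_cases hi : i ∈ T
    · simp only [hi, if_true]
      exact (hq i).comp (measurable_pi_apply i)
    · simp only [hi, if_false]
      exact (hp i).comp (measurable_pi_apply i)
  have key : ∀ T : Finset (Fin s), Measure.pi μ {ω | sc (S ∅ ω) (S T ω)} ≤ ∑ i ∈ T, β i := by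
    intro T
    induction T using Finset.induction_on with
    | empty => simp [sc]
    | insert i T hi ih =>
      rw [Finset.sum_insert hi, add_comm]
      have hsub : {ω | sc (S ∅ ω) (S (insert i T) ω)} ⊆
          {ω | sc (S ∅ ω) (S T ω)} ∪ {ω | sc (S T ω) (S (insert i T) ω)} := by
        intro ω hω
        exact sc_trans hω
      refine (measure_mono hsub).trans ((measure_union_le _ _).trans (add_le_add ih ?_))
      refine fub μ i _ (meas_sc (hS _) (hS _)) (β i) fun ω => ?_
      have h1 : ∀ x : Y i, S T (Function.update ω i x) = p i x +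
          ((∑ j ∈ Finset.univ.erase i, if j ∈ T then q j (ω j) else p j (ω j)) + b) := by
        intro x
        simp only [S]
        rw [← Finset.add_sum_erase Finset.univ _ (Finset.mem_univ i)]
        simp only [hi, if_false, Function.update_self]
        have h2 : (∑ j ∈ Finset.univ.erase i, if j ∈ T then q j (Function.update ω i x j)
            else p j (Function.update ω i x j)) =
            ∑ j ∈ Finset.univ.erase i, if j ∈ T then q j (ω j) else p j (ω j) := by
          refine Finset.sum_congr rfl fun j hj => ?_
          rw [Function.update_of_ne (Finset.ne_of_mem_erase hj)]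
        rw [h2]
        ring
      have h2 : ∀ x : Y i, S (insert i T) (Function.update ω i x) = q i x +
          ((∑ j ∈ Finset.univ.erase i, if j ∈ T then q j (ω j) else p j (ω j)) + b) := by
        intro x
        simp only [S]
        rw [← Finset.add_sum_erase Finset.univ _ (Finset.mem_univ i)]
        simp only [Finset.mem_insert_self, if_true, Function.update_self]
        have h2 : (∑ j ∈ Finset.univ.erase i, if j ∈ insert i T then q j (Function.update ω i x j)
            else p j (Function.update ω i x j)) =
            ∑ j ∈ Finset.univ.erase i, if j ∈ T then q j (ω j) else p j (ω j) := by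
          refine Finset.sum_congr rfl fun j hj => ?_
          have hne := Finset.ne_of_mem_erase hj
          rw [Function.update_of_ne hne]
          simp only [Finset.mem_insert, hne, false_or]
        rw [h2]
        ring
      have h3 : {x | Function.update ω i x ∈ {ω | sc (S T ω) (S (insert i T) ω)}} =
          {x | sc (p i x + ((∑ j ∈ Finset.univ.erase i,
            if j ∈ T then q j (ω j) else p j (ω j)) + b)) (q i x + ((∑ j ∈ Finset.univ.erase i,
            if j ∈ T then q j (ω j) else p j (ω j)) + b))} := by
        ext x
        simp only [Set.mem_setOf_eq]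
        rw [h1, h2]
      rw [h3]
      exact hβ i _
  have h := key Finset.univ
  simpa only [S, Finset.notMem_empty, if_false, Finset.mem_univ, if_true] using h

end Pool.Agent.W433.RS.HY
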